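import Pool.Agent.W2helper38.FA.Gap

/-!
# Groups built by actions on trees
-/

set_option autoImplicit false

open scoped commutatorElement

namespace Pool.Agent.W2helper38.FA

open Pool.Agent.T6.H67.TA
open Pool.Agent.H45R3.UG (VirtNilp)

/-- The smallest class of groups which contains all groups whose finitely generated perfect
subgroups are finite, and is closed under: actions on trees with vertex stabilisers in the class;
groups all whose finitely generated subgroups are in the class; extensions of `N` by `G / N`, where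
`G / N` has no nontrivial finite perfect subgroup; groups with two quotients in the class, such
that the intersection of the kernels is locally finite. -/
inductive Hier : (G : Type) → [Group G] → Prop
  | base (G : Type) [Group G] : (∀ K : Subgroup G, K.FG → ⁅K, K⁆ = K → Finite K) → Hier G
  | tree (G : Type) [Group G] (V : Type) [MulAction G V] (T : SimpleGraph V) : T.IsTree →
      (∀ (g : G) (u v : V), T.Adj u v → T.Adj (g • u) (g • v)) →
      (∀ v : V, Hier (MulAction.stabilizer G v)) → Hier G
  | loc (G : Type) [Group G] : (∀ K : Subgroup G, K.FG → Hier K) → Hier G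
  | ext (G : Type) [Group G] (N : Subgroup G) [N.Normal] : Hier N → Hier (G ⧸ N) →
      (∀ F : Subgroup (G ⧸ N), Finite F → ⁅F, F⁆ = F → F = ⊥) → Hier G
  | res (G : Type) [Group G] (N₁ N₂ : Subgroup G) [N₁.Normal] [N₂.Normal] :
      Hier (G ⧸ N₁) → Hier (G ⧸ N₂) → (∀ L : Subgroup G, L ≤ N₁ ⊓ N₂ → L.FG → Finite L) → Hier G

lemma PropFA.of_surj {K L : Type} [Group K] [Group L] (h : PropFA K) (f : K →* L)
    (hf : Function.Surjective f) : PropFA L := by
  intro V _ T hT h1 h2
  let _ : MulAction K V := MulAction.compHom V f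
  obtain ⟨v, hv⟩ := h V T hT (fun g u v huv => h1 (f g) u v huv)
    (fun g u v huv => h2 (f g) u v huv)
  refine ⟨v, fun g => ?_⟩
  obtain ⟨k, rfl⟩ := hf g
  exact hv k

lemma range_perfect {K G : Type} [Group K] [Group G] (f : K →* G)
    (hp : ⁅(⊤ : Subgroup K), (⊤ : Subgroup K)⁆ = ⊤) : ⁅f.range, f.range⁆ = f.range := by
  rw [MonoidHom.range_eq_map, ← Subgroup.map_commutator, hp]

lemma fg_map {K G : Type} [Group K] [Group G] (f : K →* G) {M : Subgroup K} (hM : M.FG) :
    (M.map f).FG := by
  classical
  obtain ⟨S, hS⟩ := hM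
  exact ⟨S.image f, by rw [Finset.coe_image, ← MonoidHom.map_closure, hS]⟩

lemma range_fg {K G : Type} [Group K] [Group G] (f : K →* G) (hK : Group.FG K) : f.range.FG := by
  rw [MonoidHom.range_eq_map]
  exact fg_map f (Group.fg_def.1 hK)

/-- the image of a finitely generated perfect (FA) group in a group of the class is finite -/
theorem Hier.finite_range {G : Type} [Group G] (h : Hier G) : ∀ (K : Type) [Group K] (f : K →* G),
    Group.FG K → ⁅(⊤ : Subgroup K), (⊤ : Subgroup K)⁆ = ⊤ → PropFA K → Finite f.range := by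
  induction h with
  | base G hG =>
    intro K _ f hK hp _
    exact hG _ (range_fg f hK) (range_perfect f hp)
  | tree G V T hT hact hst ih =>
    intro K _ f hK hp hFA
    let _ : MulAction K V := MulAction.compHom V f
    have hactK : ∀ (g : K) (u v : V), T.Adj u v → T.Adj (g • u) (g • v) :=
      fun g u v huv => hact (f g) u v huv
    obtain ⟨v, hv⟩ := hFA V T hT hactK (by
      rintro g u v huv ⟨h1, -⟩
      have h2 := even_of_perfect hT hactK hp g u
      rw [h1, adj_D huv] at h2
      exact absurd h2 (by decide))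
    have hle : ∀ k, f k ∈ MulAction.stabilizer G v := fun k => hv k
    have h1 := ih v K (f.codRestrict _ hle) hK hp hFA
    have h2 : f.range = (f.codRestrict _ hle).range.map (Subgroup.subtype _) := by
      rw [← MonoidHom.range_comp]
      rfl
    rw [h2]
    have h3 : ((f.codRestrict _ hle).range : Set (MulAction.stabilizer G v)).Finite := h1
    exact h3.image _
  | loc G _ ih =>
    intro K _ f hK hp hFA
    have h1 := ih f.range (range_fg f hK) K f.rangeRestrict hK hp hFA
    have h2 : f.rangeRestrict.range = ⊤ :=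
      MonoidHom.range_eq_top.2 f.rangeRestrict_surjective
    rw [h2] at h1
    exact Finite.of_equiv _ Subgroup.topEquiv.toEquiv
  | ext G N _ _ hF ih1 ih2 =>
    intro K _ f hK hp hFA
    have h1 := ih2 K ((QuotientGroup.mk' N).comp f) hK hp hFA
    have h2 := hF _ h1 (range_perfect _ hp)
    have hle : ∀ k, f k ∈ N := by
      intro k
      have : (QuotientGroup.mk' N).comp f k = 1 := by
        have h3 : (QuotientGroup.mk' N).comp f k ∈ ((QuotientGroup.mk' N).comp f).range := ⟨k, rfl⟩
        rw [h2] at h3
        exact h3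
      exact (QuotientGroup.eq_one_iff _).1 this
    have h1 := ih1 K (f.codRestrict _ hle) hK hp hFA
    have h2 : f.range = (f.codRestrict _ hle).range.map (Subgroup.subtype _) := by
      rw [← MonoidHom.range_comp]
      rfl
    rw [h2]
    have h3 : ((f.codRestrict _ hle).range : Set N).Finite := h1
    exact h3.image _
  | res G N₁ N₂ _ _ hL ih1 ih2 =>
    intro K _ f hK hp hFA
    have h1 := ih1 K ((QuotientGroup.mk' N₁).comp f) hK hp hFA
    have h2 := ih2 K ((QuotientGroup.mk' N₂).comp f) hK hp hFA
    have i1 : ((QuotientGroup.mk' N₁).comp f).ker.FiniteIndex := Subgroup.finiteIndex_ker _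
    have i2 : ((QuotientGroup.mk' N₂).comp f).ker.FiniteIndex := Subgroup.finiteIndex_ker _
    let M : Subgroup K := ((QuotientGroup.mk' N₁).comp f).ker ⊓ ((QuotientGroup.mk' N₂).comp f).ker
    have i3 : M.FiniteIndex := inferInstance
    have hM : M.FG := (Group.fg_iff_subgroup_fg M).1 (Subgroup.fg_of_index_ne_zero M)
    have h3 : Finite (M.map f) := by
      apply hL _ _ (fg_map f hM)
      rintro _ ⟨x, hx, rfl⟩
      exact ⟨(QuotientGroup.eq_one_iff _).1 hx.1, (QuotientGroup.eq_one_iff _).1 hx.2⟩
    have h4 : Finite (K ⧸ M) := inferInstance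
    have h5 : (f.range : Set G).Finite := by
      refine (Set.finite_range (fun q : (K ⧸ M) × (M.map f) =>
        f (Quotient.out q.1) * (q.2 : G))).subset ?_
      rintro _ ⟨k, rfl⟩
      obtain ⟨m, hm⟩ := QuotientGroup.mk_out_eq_mul M k
      refine ⟨(QuotientGroup.mk k, ⟨f (m⁻¹ : M), ⟨_, (m⁻¹).2, rfl⟩⟩), ?_⟩
      show f (Quotient.out (QuotientGroup.mk k : K ⧸ M)) * f ((m⁻¹ : M) : K) = f k
      rw [← map_mul, hm]
      simp
    exact h5

/-- a group of the class which is an exception is virtually nilpotent -/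
theorem Hier.vn {Q : Type} [Group Q] (h : Hier Q) (he : Exc Q) : VirtNilp Q := by
  obtain ⟨K, hK, hfg, hperf, hFA, -, hvn⟩ := he
  have hp : ⁅(⊤ : Subgroup K), (⊤ : Subgroup K)⁆ = ⊤ := by
    apply Subgroup.map_injective (Subgroup.subtype_injective K)
    rw [Subgroup.map_commutator, ← MonoidHom.range_eq_map, Subgroup.range_subtype, hperf]
  have h1 := h.finite_range K K.subtype (((Group.fg_iff_subgroup_fg K).2 hfg)) hp hFA
  rw [Subgroup.range_subtype] at h1
  exact vn_of_finite K h1 hvn

lemma vn_of_surj {K L : Type} [Group K] [Group L] (h : VirtNilp K) (f : K →* L)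
    (hf : Function.Surjective f) : VirtNilp L := by
  obtain ⟨H, hH, hn⟩ := h
  refine ⟨H.map f, ?_, ?_⟩
  · refine ⟨fun h0 => hH.index_ne_zero ?_⟩
    exact Nat.eq_zero_of_zero_dvd (h0 ▸ Subgroup.index_map_dvd H hf)
  · exact Group.nilpotent_of_surjective (f.subgroupMap H) (f.subgroupMap_surjective H)

/-- quotients of exceptions are exceptions -/
theorem Exc.quot {Q : Type} [Group Q] (h : Exc Q) (N : Subgroup Q) [N.Normal] : Exc (Q ⧸ N) := by
  obtain ⟨K, hK, hfg, hperf, hFA, hsol, hvn⟩ := h
  let π : Q →* Q ⧸ N := QuotientGroup.mk' N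
  have hπ : Function.Surjective π := QuotientGroup.mk'_surjective N
  have hKn : (K.map π).Normal := hK.map π hπ
  let g : Q ⧸ K →* (Q ⧸ N) ⧸ (K.map π) :=
    QuotientGroup.map K (K.map π) π (Subgroup.le_comap_map π K)
  have hg : Function.Surjective g := by
    intro x
    obtain ⟨y, rfl⟩ := QuotientGroup.mk'_surjective _ x
    obtain ⟨z, rfl⟩ := hπ y
    exact ⟨QuotientGroup.mk z, rfl⟩
  refine ⟨K.map π, hKn, fg_map π hfg, ?_, ?_, ?_, ?_⟩
  · rw [← Subgroup.map_commutator, hperf]
  · exact hFA.of_surj (π.subgroupMap K) (π.subgroupMap_surjective K)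
  · exact Group.isSolvable_of_surjective hg
  · exact vn_of_surj hvn g hg

end Pool.Agent.W2helper38.FA
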