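import Pool.Agent.W582.UG.ResSol

/-!
# Finite-by-(virtually nilpotent) groups
-/

set_option autoImplicit false

namespace Pool.Agent.W2helper38.FA

open Pool.Agent.H45R3.UG

/-- a group with a finite normal subgroup and virtually nilpotent quotient is virtually nilpotent -/
theorem vn_of_finite {G : Type} [Group G] (K : Subgroup G) [K.Normal] (hK : Finite K)
    (h : VirtNilp (G ⧸ K)) : VirtNilp G := by
  obtain ⟨H, hH, hn⟩ := h
  let φ : G →* MulAut K := MulAut.conjNormal
  have hfin : Finite (MulAut K) := Finite.of_injective (fun f : MulAut K => (f : K → K))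
    (fun a b h => MulEquiv.ext fun x => congrFun h x)
  have h1 : φ.ker.FiniteIndex := Subgroup.finiteIndex_ker φ
  have h2 : (H.comap (QuotientGroup.mk' K)).FiniteIndex :=
    ⟨by rw [H.index_comap_of_surjective (QuotientGroup.mk'_surjective K)]; exact hH.index_ne_zero⟩
  refine ⟨φ.ker ⊓ H.comap (QuotientGroup.mk' K), inferInstance, ?_⟩
  let f : ↥(φ.ker ⊓ H.comap (QuotientGroup.mk' K)) →* H :=
    ((QuotientGroup.mk' K).comp (Subgroup.subtype _)).codRestrict H (fun x => x.2.2)
  refine Subgroup.isNilpotent_of_ker_le_center f ?_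
  intro x hx
  have hxK : (x : G) ∈ K := by
    have : QuotientGroup.mk' K (x : G) = 1 := congrArg Subtype.val (MonoidHom.mem_ker.1 hx)
    exact (QuotientGroup.eq_one_iff _).1 this
  rw [Subgroup.mem_center_iff]
  intro y
  have hy : φ (y : G) = 1 := y.2.1
  have h3 : φ (y : G) ⟨x, hxK⟩ = ⟨x, hxK⟩ := by rw [hy]; rfl
  have h4 : (y : G) * x * (y : G)⁻¹ = x := congrArg Subtype.val h3
  apply Subtype.ext
  show (y : G) * x = x * y
  rw [mul_inv_eq_iff_eq_mul] at h4
  exact h4

end Pool.Agent.W2helper38.FA
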