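import Pool.Agent.W2helper38.FA.Short
import Pool.Agent.H45R3.UG.Solv

/-!
# Exponential growth of perfect groups acting on trees
-/

set_option autoImplicit false

open scoped commutatorElement

namespace Pool.Agent.W2helper38.FA

open Pool.Agent.T6.H67.TA
open Pool.Agent.H45R3.UG (ball ball_finite ball_mono one_mem_ball mul_mem_ball mem_ball_one
  inv_mem_ball_one inv_mem_ball ball_sub)

/-- Serre's property (FA) for a countable group: every action without inversions on a tree has a
fixed vertex. -/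
def PropFA (K : Type) [Group K] : Prop :=
  ∀ (V : Type) [MulAction K V] (T : SimpleGraph V), T.IsTree →
    (∀ (g : K) (u v : V), T.Adj u v → T.Adj (g • u) (g • v)) →
    (∀ (g : K) (u v : V), T.Adj u v → ¬ (g • u = v ∧ g • v = u)) →
    ∃ v : V, ∀ g : K, g • v = v

section

variable {V : Type} {T : SimpleGraph V} (hT : T.IsTree) {K : Type} [Group K] [MulAction K V]
  (hact : ∀ (g : K) (u v : V), T.Adj u v → T.Adj (g • u) (g • v))

include hT hact in
/-- two short elements generate a free semigroup -/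
theorem short_pair (hperf : ⁅(⊤ : Subgroup K), (⊤ : Subgroup K)⁆ = ⊤) (Y : Finset K)
    (hY : Subgroup.closure (Y : Set K) = ⊤) (hfix : ¬ ∃ v : V, ∀ g : K, g • v = v) :
    ∃ (a b : K) (p : V), a ∈ ball Y 6 ∧ b ∈ ball Y 6 ∧ PP T p a b := by
  classical
  have hfix' : ∀ p : V, ∃ y ∈ Y, y • p ≠ p := by
    intro p
    by_contra hcon
    push Not at hcon
    apply hfix
    refine ⟨p, fun g => ?_⟩
    have h1 : Subgroup.closure (Y : Set K) ≤ MulAction.stabilizer K p := by
      rw [Subgroup.closure_le]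
      intro y hy
      exact hcon y hy
    rw [hY] at h1
    exact h1 (Subgroup.mem_top g)
  have hev := even_of_perfect hT hact hperf
  obtain ⟨h, hh, q, hq⟩ := serre hT hact hev Y hfix'
  obtain ⟨o, ho'⟩ := exists_axis hT hact hev h q hq
  have ho : OnAxis T h o := ho'
  have hhb : h ∈ ball Y 2 := by
    rcases hh with hh | ⟨y, hy, z, hz, rfl⟩
    · exact ball_mono (by norm_num) (mem_ball_one hh)
    · exact mul_mem_ball (m := 1) (n := 1) (mem_ball_one hy) (mem_ball_one hz)
  have hhib : h⁻¹ ∈ ball Y 2 := inv_mem_ball hhb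
  -- the core
  have core : ∀ (f y : K), f ∈ ball Y 2 → y ∈ Y → OnAxis T f o →
      (¬ Rel T o f f y ∧ ¬ Rel T o f f⁻¹ y) →
      ∃ (a b : K) (p : V), a ∈ ball Y 6 ∧ b ∈ ball Y 6 ∧ PP T p a b := by
    intro f y hf hy hof hrel
    obtain ⟨C1, hC1⟩ := bdd_of_not_rel hT hact hof hof rfl hrel.1
    obtain ⟨C2, hC2⟩ := bdd_of_not_rel hT hact hof (hof.inv hT hact) (D_inv hT hact f o) hrel.2
    obtain ⟨p, hp, hg, e1, e2⟩ := exists_leave hT hact (h := f) (y := y) hof (C := max C1 C2)
      (fun n m => (hC1 n m).trans (le_max_left _ _)) (fun n m => (hC2 n m).trans (le_max_right _ _))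
    have hfi : f⁻¹ ∈ ball Y 2 := inv_mem_ball hf
    have hgb : y * f * y⁻¹ ∈ ball Y 4 :=
      mul_mem_ball (m := 3) (mul_mem_ball (m := 1) (mem_ball_one hy) hf) (inv_mem_ball_one hy)
    rcases pp_of_leave hT hact hp hg e1 e2 with hpp | hpp | hpp
    · exact ⟨_, _, p, mul_mem_ball (m := 2) (n := 4) hf hgb,
        mul_mem_ball (m := 2) (n := 4) hfi hgb, hpp⟩
    · exact ⟨_, _, p, ball_mono (by norm_num) hf, ball_mono (by norm_num) hgb, hpp⟩
    · exact ⟨_, _, p, ball_mono (by norm_num) hfi, ball_mono (by norm_num) hgb, hpp⟩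
  obtain ⟨y, hy, hrel | hrel⟩ := exists_mover hT hact hperf ho (Y : Set K) hY
  · exact core h y hhb hy ho hrel
  · exact core h⁻¹ y hhib hy (ho.inv hT hact) (by rw [inv_inv]; exact ⟨hrel.2, hrel.1⟩)

lemma word_mem {Y : Finset K} {a b : K} {L : ℕ} (ha : a ∈ ball Y L) (hb : b ∈ ball Y L)
    (l : List Bool) : word a b l ∈ ball Y (l.length * L) := by
  induction l with
  | nil => exact one_mem_ball _
  | cons c l ih =>
    rw [word_cons, List.length_cons]
    have h1 : (cond c a b : K) ∈ ball Y L := by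
      cases c
      · exact hb
      · exact ha
    exact ball_mono (by rw [Nat.add_mul, one_mul, add_comm]) (mul_mem_ball h1 ih)

include hT hact in
/-- uniform exponential growth -/
theorem ball_of_tree (hperf : ⁅(⊤ : Subgroup K), (⊤ : Subgroup K)⁆ = ⊤) (Y : Finset K)
    (hY : Subgroup.closure (Y : Set K) = ⊤) (hfix : ¬ ∃ v : V, ∀ g : K, g • v = v) (m : ℕ) :
    2 ^ m ≤ (ball Y (m * 6)).ncard := by
  classical
  obtain ⟨a, b, p, ha, hb, hpp⟩ := short_pair hT hact hperf Y hY hfix
  let f : (Fin m → Bool) → K := fun w => word a b (List.ofFn w)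
  have hf : Function.Injective f := by
    intro w w' hw
    exact List.ofFn_injective (word_injective hT hact hpp _ _ (by simp) hw)
  have h1 : (Set.range f).ncard = 2 ^ m := by
    rw [← Set.image_univ, Set.ncard_image_of_injective _ hf, Set.ncard_univ, Nat.card_eq_fintype_card]
    simp
  rw [← h1]
  apply Set.ncard_le_ncard _ (ball_finite _ _)
  rintro _ ⟨w, rfl⟩
  have := word_mem ha hb (List.ofFn w)
  rwa [List.length_ofFn] at this

end

/-- for subgroups -/
theorem ball_of_not_FA {G : Type} [Group G] (K : Subgroup G) (hperf : ⁅K, K⁆ = K)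
    (S : Finset G) (hS : Subgroup.closure (S : Set G) = K) (hFA : ¬ PropFA K) (m : ℕ) :
    2 ^ m ≤ (ball S (m * 6)).ncard := by
  classical
  unfold PropFA at hFA
  push Not at hFA
  obtain ⟨V, _, T, hT, hact, -, hfix⟩ := hFA
  have hSK : ∀ s ∈ S, s ∈ K := by
    intro s hs
    rw [← hS]
    exact Subgroup.subset_closure hs
  let Y : Finset K := S.attach.image fun s => ⟨s.1, hSK s.1 s.2⟩
  have hYS : (Y : Set K) = (Subtype.val : K → G) ⁻¹' (S : Set G) := by
    ext x
    constructor
    · intro hx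
      obtain ⟨s, -, hs⟩ := Finset.mem_image.1 (Finset.mem_coe.1 hx)
      rw [← hs]
      exact s.2
    · intro hx
      exact Finset.mem_coe.2 (Finset.mem_image.2 ⟨⟨x.1, hx⟩, Finset.mem_attach _ _, rfl⟩)
  have hY : Subgroup.closure (Y : Set K) = ⊤ := by
    apply Subgroup.map_injective (Subgroup.subtype_injective K)
    rw [MonoidHom.map_closure, ← MonoidHom.range_eq_map, Subgroup.range_subtype]
    conv_rhs => rw [← hS]
    congr 1
    rw [hYS]
    ext x
    constructor
    · rintro ⟨y, hy, rfl⟩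
      exact hy
    · intro hx
      exact ⟨⟨x, hSK x hx⟩, hx, rfl⟩
  have hp : ⁅(⊤ : Subgroup K), (⊤ : Subgroup K)⁆ = ⊤ := by
    apply Subgroup.map_injective (Subgroup.subtype_injective K)
    rw [Subgroup.map_commutator, ← MonoidHom.range_eq_map, Subgroup.range_subtype, hperf]
  refine (ball_of_tree hT hact hp Y hY (by push Not; exact hfix) m).trans ?_
  rw [← Set.ncard_image_of_injective _ Subtype.val_injective]
  apply Set.ncard_le_ncard _ (ball_finite _ _)
  rintro _ ⟨x, ⟨l, h1, h2, rfl⟩, rfl⟩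
  refine ⟨l.map Subtype.val, by simpa using h1, ?_, ?_⟩
  · intro z hz
    obtain ⟨w, hw, rfl⟩ := List.mem_map.1 hz
    rcases h2 w hw with h | h
    · left
      have : w ∈ (Y : Set K) := h
      rw [hYS] at this
      exact this
    · right
      have : w⁻¹ ∈ (Y : Set K) := h
      rw [hYS] at this
      exact this
  · exact (map_list_prod K.subtype l).symm

end Pool.Agent.W2helper38.FA
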