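import Pool.Agent.W2helper38.FA.Fin
import Pool.Agent.W2helper38.FA.Grow
import Pool.Agent.W582.UG.Idx

/-!
# The uniform gap for groups which are not (perfect with (FA))-by-(soluble virtually nilpotent)
-/

set_option autoImplicit false

open scoped commutatorElement

namespace Pool.Agent.W2helper38.FA

open Pool.Agent.H45R3.UG Pool.Agent.W582.UG

/-- `Q` is an extension of a finitely generated perfect group with property (FA) by a soluble,
virtually nilpotent group. -/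
def Exc (Q : Type) [Group Q] : Prop :=
  ∃ (K : Subgroup Q) (_ : K.Normal), K.FG ∧ ⁅K, K⁆ = K ∧ PropFA K ∧ Group.IsSolvable (Q ⧸ K) ∧
    VirtNilp (Q ⧸ K)

section
variable {G : Type} [Group G] {X : Finset G}

theorem dich {c₀ : ℝ} (h0 : ∀ (G : Type) [Group G] (X : Finset G) (k : ℕ),
    Subgroup.closure (X : Set G) = ⊤ → derivedSeries G (k + 1) = ⊥ → ¬ VirtNilp G →
    ∀ M : ℕ, 1 ≤ M → Real.exp (c₀ * M / (Real.log (2 * M)) ^ 4) ≤
      ((ball X (2 * 4 ^ k * M ^ 2)).ncard : ℝ))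
    (hgen : Subgroup.closure (X : Set G) = ⊤)
    (hres : ∀ (K : Subgroup G) [K.Normal], ⁅K, K⁆ = K → Group.IsSolvable (G ⧸ K) →
      ∀ S : Finset G, Subgroup.closure (S : Set G) = K →
        ¬ VirtNilp (G ⧸ K) ∨ ∀ m : ℕ, 2 ^ m ≤ (ball S (m * 6)).ncard)
    (j : ℕ) :
    2 ^ 2 ^ j ≤ (ball X (2 ^ 24 * (2 ^ 27) ^ j)).ncard ∨
      Real.exp (c₀ * (MM j : ℝ) / (Real.log (2 * (MM j : ℝ))) ^ 4) ≤
        ((ball X (2 ^ 24 * (2 ^ 27) ^ j)).ncard : ℝ) := by
  classical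
  by_cases hb : 2 ^ 2 ^ j ≤ (ball X (2 ^ 24 * (2 ^ 27) ^ j)).ncard
  · exact Or.inl hb
  right
  rw [not_le] at hb
  obtain ⟨k, hk⟩ : ∃ k, k = (11 * j + 9) + j + 1 := ⟨_, rfl⟩
  have hLL0 : 2 ^ j * LL (2 ^ j) k ≤ 2 ^ 21 * (2 ^ 27) ^ j := by
    have h1 : 1 ≤ 2 ^ j := Nat.one_le_pow _ _ (by norm_num)
    calc 2 ^ j * LL (2 ^ j) k ≤ 2 ^ j * (2 * 4 ^ k * 2 ^ j) :=
          Nat.mul_le_mul_left _ (LL_le h1 k)
      _ = 2 ^ 21 * (4 ^ 11 * 4 * 2 * 2) ^ j := by
          rw [hk, mul_pow, mul_pow, mul_pow, pow_add, pow_add, pow_add, pow_mul]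
          ring
      _ ≤ 2 ^ 21 * (2 ^ 27) ^ j :=
          Nat.mul_le_mul_left _ (Nat.pow_le_pow_left (by norm_num) j)
  have hmono : 2 ^ 21 * (2 ^ 27) ^ j ≤ 2 ^ 24 * (2 ^ 27) ^ j :=
    Nat.mul_le_mul_right _ (by norm_num)
  have hLL : 2 ^ j * LL (2 ^ j) k ≤ 2 ^ 24 * (2 ^ 27) ^ j := hLL0.trans hmono
  obtain ⟨S, hS1, hS⟩ := derived_short (k := k) hgen hb hLL k le_rfl
  -- the derived series is stationary at `k`
  have hstat : derivedSeries G (k + 1) = derivedSeries G k := by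
    by_contra hstep
    obtain ⟨x, hx, hx'⟩ := SetLike.exists_of_lt
      (lt_of_le_of_ne (derivedSeries_antitone G (Nat.le_succ k)) hstep)
    let N : Subgroup G := derivedSeries G (k + 1)
    let π : G →* G ⧸ N := QuotientGroup.mk' N
    have hπ : Function.Surjective π := QuotientGroup.mk'_surjective N
    have h2 := deep_sol (X := X.image π) (closure_image π hπ hgen) j
      (by
        rw [← hk]
        exact derived_quot_ne (N := N) hx hx') (by
        have e : (11 * j + 9) + j + 2 = k + 1 := by omega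
        rw [e, ← map_derivedSeries_eq hπ, Subgroup.map_eq_bot_iff]
        exact (QuotientGroup.ker_mk' N).ge)
    have e : 8 * 4 ^ (11 * j + 9) * 32 ^ j = 2 ^ 21 * (2 ^ 27) ^ j := by
      rw [pow_add, pow_mul]
      have : (8 : ℕ) * ((4 ^ 11) ^ j * 4 ^ 9) * 32 ^ j = 8 * 4 ^ 9 * (4 ^ 11 * 32) ^ j := by
        rw [mul_pow]
        ring
      rw [this]
      norm_num
    rw [e] at h2
    have h3 := Set.ncard_le_ncard (ball_mono (X := X) hmono) (ball_finite X _)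
    exact absurd ((h2.trans (ball_image π X _)).trans h3) (not_le.2 hb)
  have hperf : ⁅derivedSeries G k, derivedSeries G k⁆ = derivedSeries G k := by
    rw [← derivedSeries_succ, hstat]
  let K : Subgroup G := derivedSeries G k
  let π : G →* G ⧸ K := QuotientGroup.mk' K
  have hπ : Function.Surjective π := QuotientGroup.mk'_surjective K
  have hbot : derivedSeries (G ⧸ K) (11 * j + 9 + j + 1) = ⊥ := by
    rw [← hk, ← map_derivedSeries_eq hπ, Subgroup.map_eq_bot_iff]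
    exact (QuotientGroup.ker_mk' K).ge
  have hsol : Group.IsSolvable (G ⧸ K) := (Group.isSolvable_def _).2 ⟨_, hbot⟩
  rcases hres K hperf hsol S hS with hvn' | hexp
  · -- the soluble quotient
    refine (h0 (G ⧸ K) (X.image π) (11 * j + 9 + j) (closure_image π hπ hgen) hbot hvn' (MM j)
      (Nat.one_le_pow _ _ (by norm_num))).trans ?_
    have h1 : 2 * 4 ^ (11 * j + 9 + j) * MM j ^ 2 ≤ 2 ^ 24 * (2 ^ 27) ^ j := by
      calc 2 * 4 ^ (11 * j + 9 + j) * MM j ^ 2 ≤ 2 * 4 ^ (11 * j + 9 + j) * 8 ^ j :=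
            Nat.mul_le_mul_left _ (MM_sq j)
        _ = 2 ^ 19 * (4 ^ 11 * 4 * 8) ^ j := by
            rw [mul_pow, mul_pow, pow_add, pow_add, pow_mul]
            ring
        _ = 2 ^ 19 * (2 ^ 27) ^ j := by norm_num
        _ ≤ 2 ^ 24 * (2 ^ 27) ^ j := Nat.mul_le_mul_right _ (by norm_num)
    have h2 : (ball (X.image π) (2 * 4 ^ (11 * j + 9 + j) * MM j ^ 2)).ncard ≤
        (ball X (2 ^ 24 * (2 ^ 27) ^ j)).ncard :=
      (ball_image π X _).trans (Set.ncard_le_ncard (ball_mono h1) (ball_finite X _))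
    exact_mod_cast h2
  · -- a perfect normal subgroup of exponential growth
    exfalso
    have h1 := hexp (2 ^ j)
    have h2 : ball S (2 ^ j * 6) ⊆ ball X (2 ^ j * 6 * LL (2 ^ j) k) := ball_sub hS1 _
    have h3 : 2 ^ j * 6 * LL (2 ^ j) k ≤ 2 ^ 24 * (2 ^ 27) ^ j := by
      calc 2 ^ j * 6 * LL (2 ^ j) k = 6 * (2 ^ j * LL (2 ^ j) k) := by ring
        _ ≤ 6 * (2 ^ 21 * (2 ^ 27) ^ j) := Nat.mul_le_mul_left _ hLL0
        _ = (6 * 2 ^ 21) * (2 ^ 27) ^ j := by ring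
        _ ≤ 2 ^ 24 * (2 ^ 27) ^ j := Nat.mul_le_mul_right _ (by norm_num)
    have h4 := Set.ncard_le_ncard (h2.trans (ball_mono h3)) (ball_finite X _)
    omega

end

lemma propFA_of_subsingleton (K : Type) [Group K] [Subsingleton K] : PropFA K := by
  intro V _ T hT _ _
  obtain ⟨v⟩ := hT.connected.nonempty
  refine ⟨v, fun g => ?_⟩
  rw [Subsingleton.elim g 1, one_smul]

lemma nontrivial_of_not_exc {G : Type} [Group G] (h : ¬ Exc G) : Nontrivial G := by
  by_contra hcon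
  rw [not_nontrivial_iff_subsingleton] at hcon
  apply h
  have h1 : Subsingleton (G ⧸ (⊥ : Subgroup G)) := by
    refine ⟨fun a b => ?_⟩
    obtain ⟨a, rfl⟩ := QuotientGroup.mk'_surjective _ a
    obtain ⟨b, rfl⟩ := QuotientGroup.mk'_surjective _ b
    rw [Subsingleton.elim a b]
  exact ⟨⊥, inferInstance, ⟨∅, by simp⟩, by simp, propFA_of_subsingleton _,
    inferInstance, ⟨⊤, inferInstance, inferInstance⟩⟩

/-- The final form. -/
theorem gap : ∃ c : ℝ, 0 < c ∧ c ≤ Real.log 2 / 2 ∧ ∀ (G : Type) [Group G] (X : Finset G),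
    Subgroup.closure (X : Set G) = ⊤ → ¬ Exc G → ∀ n : ℕ, 1 ≤ n →
    Real.exp (c * (n : ℝ) ^ (1 / ((27 : ℕ) : ℝ))) ≤ ((ball X n).ncard : ℝ) := by
  classical
  obtain ⟨c₀, hc₀, h0⟩ := solv_bound2
  obtain ⟨c, hc, hc', h⟩ := final_num hc₀ (A := 2 ^ 24) (e := 27) (by norm_num) (by norm_num)
  refine ⟨c, hc, hc', ?_⟩
  intro G _ X hgen hexc n hn
  have hres : ∀ (K : Subgroup G) [K.Normal], ⁅K, K⁆ = K → Group.IsSolvable (G ⧸ K) →
      ∀ S : Finset G, Subgroup.closure (S : Set G) = K →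
        ¬ VirtNilp (G ⧸ K) ∨ ∀ m : ℕ, 2 ^ m ≤ (ball S (m * 6)).ncard := by
    intro K hK hperf hsol S hS
    by_cases hFA : PropFA K
    · exact Or.inl fun hvn => hexc ⟨K, hK, ⟨S, hS⟩, hperf, hFA, hsol, hvn⟩
    · exact Or.inr (ball_of_not_FA K hperf S hS hFA)
  exact h (fun n => (ball X n).ncard)
    (fun a b hab => Set.ncard_le_ncard (ball_mono hab) (ball_finite _ _))
    (fun m hm => two_le_ball hgen (nontrivial_of_not_exc hexc) hm)
    (fun j => dich h0 hgen hres j) n hn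

/-- With a subgroup of bounded index. -/
theorem gap_index : ∃ c : ℝ, 0 < c ∧ ∀ (d : ℕ) (G : Type) [Group G] (X : Finset G)
    (H : Subgroup G), Subgroup.closure (X : Set G) = ⊤ → H.index ≠ 0 → H.index ≤ d → ¬ Exc H →
    ∀ n : ℕ, 1 ≤ n →
    Real.exp (c * ((n : ℝ) / d) ^ (1 / ((27 : ℕ) : ℝ))) ≤ ((ball X n).ncard : ℝ) := by
  obtain ⟨c, hc, hc', h⟩ := gap
  refine ⟨c / 4, by positivity, ?_⟩
  intro d G _ X H hgen hH0 hHd hexc n hn
  have hG : Nontrivial G := by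
    have := nontrivial_of_not_exc hexc
    obtain ⟨a, b, hab⟩ := this
    exact ⟨a, b, fun h => hab (Subtype.ext h)⟩
  exact index_transfer hc hc' (e := 27) (by norm_num) X H hgen hH0 hHd hG
    (fun Y hY m hm => h H Y hY hexc m hm) n hn

end Pool.Agent.W2helper38.FA
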