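import Pool.Agent.W2helper38.FA.Wr

/-!
# Quotients which are just not virtually nilpotent
-/

set_option autoImplicit false

open scoped commutatorElement

namespace Pool.Agent.W2helper38.FA

open Pool.Agent.H45R3.UG (VirtNilp)

variable {G : Type} [Group G]

lemma vn_quot_iff (N : Subgroup G) [N.Normal] :
    VirtNilp (G ⧸ N) ↔
      ∃ H : Subgroup G, H.Normal ∧ H.FiniteIndex ∧ ∃ n, H.lowerCentralSeries n ≤ N := by
  let π : G →* G ⧸ N := QuotientGroup.mk' N
  have hπ : Function.Surjective π := QuotientGroup.mk'_surjective N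
  have hker : π.ker = N := QuotientGroup.ker_mk' N
  constructor
  · rintro ⟨L, hL, hn⟩
    obtain ⟨n, hn⟩ := (Subgroup.isNilpotent_iff_lowerCentralSeries L).1 hn
    have h2 : (L.comap π).FiniteIndex :=
      ⟨by rw [L.index_comap_of_surjective hπ]; exact hL.index_ne_zero⟩
    refine ⟨(L.comap π).normalCore, inferInstance, inferInstance, n, ?_⟩
    have h3 : (((L.comap π).normalCore).lowerCentralSeries n).map π = ⊥ := by
      rw [Subgroup.map_lowerCentralSeries, eq_bot_iff, ← hn]
      apply Subgroup.lowerCentralSeries_mono n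
      exact (Subgroup.map_mono (Subgroup.normalCore_le _)).trans (Subgroup.map_comap_le _ _)
    rw [Subgroup.map_eq_bot_iff, hker] at h3
    exact h3
  · rintro ⟨H, _, hH, n, hn⟩
    refine ⟨H.map π, ?_, ?_⟩
    · refine ⟨fun h0 => hH.index_ne_zero ?_⟩
      exact Nat.eq_zero_of_zero_dvd (h0 ▸ Subgroup.index_map_dvd H hπ)
    · refine (Subgroup.isNilpotent_iff_lowerCentralSeries _).2 ⟨n, ?_⟩
      rw [← Subgroup.map_lowerCentralSeries, Subgroup.map_eq_bot_iff, hker]
      exact hn

/-- the lower central series of a finitely generated normal subgroup is generated, as a normal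
subgroup, by finitely many elements -/
lemma lcs_fin (H : Subgroup G) [H.Normal] (hH : H.FG) (n : ℕ) :
    ∃ F : Finset G, (∀ f ∈ F, f ∈ H.lowerCentralSeries n) ∧
      ∀ M : Subgroup G, M.Normal → (∀ f ∈ F, f ∈ M) → H.lowerCentralSeries n ≤ M := by
  classical
  obtain ⟨S, hS⟩ := hH
  induction n with
  | zero =>
    refine ⟨S, fun f hf => ?_, fun M _ hM => ?_⟩
    · rw [Subgroup.lowerCentralSeries_zero, ← hS]
      exact Subgroup.subset_closure hf
    · rw [Subgroup.lowerCentralSeries_zero, ← hS, Subgroup.closure_le]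
      exact hM
  | succ n ih =>
    obtain ⟨F, hF1, hF2⟩ := ih
    refine ⟨(F ×ˢ S).image fun q => ⁅q.1, q.2⁆, ?_, ?_⟩
    · intro g hg
      obtain ⟨q, hq, rfl⟩ := Finset.mem_image.1 hg
      rw [Subgroup.lowerCentralSeries_succ]
      refine Subgroup.commutator_mem_commutator (hF1 _ (Finset.mem_product.1 hq).1) ?_
      rw [← hS]
      exact Subgroup.subset_closure (Finset.mem_product.1 hq).2
    · intro M hM hM2
      let π : G →* G ⧸ M := QuotientGroup.mk' M
      have hπ : Function.Surjective π := QuotientGroup.mk'_surjective M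
      have hker : π.ker = M := QuotientGroup.ker_mk' M
      have hn : (H.map π).Normal := Subgroup.Normal.map inferInstance π hπ
      let C : Subgroup G := (Subgroup.centralizer (H.map π : Set (G ⧸ M))).comap π
      have hC : C.Normal := inferInstance
      have h1 : ∀ f ∈ F, f ∈ C := by
        intro f hf
        show π f ∈ Subgroup.centralizer (H.map π : Set (G ⧸ M))
        rw [← hS, MonoidHom.map_closure, Subgroup.centralizer_closure,
          Subgroup.mem_centralizer_iff]
        rintro _ ⟨s, hs, rfl⟩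
        have h2 : ⁅f, s⁆ ∈ M := hM2 _ (Finset.mem_image.2 ⟨(f, s), Finset.mem_product.2 ⟨hf, hs⟩, rfl⟩)
        have h3 : π ⁅f, s⁆ = 1 := (QuotientGroup.eq_one_iff _).2 h2
        rw [map_commutatorElement, commutatorElement_eq_one_iff_mul_comm] at h3
        exact h3.symm
      have h2 := hF2 C hC h1
      rw [Subgroup.lowerCentralSeries_succ, Subgroup.commutator_le]
      intro a ha b hb
      have h3 : π a ∈ Subgroup.centralizer (H.map π : Set (G ⧸ M)) := h2 ha
      have h4 := (Subgroup.mem_centralizer_iff.1 h3) (π b) ⟨b, hb, rfl⟩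
      have h5 : π ⁅a, b⁆ = 1 := by
        rw [map_commutatorElement, commutatorElement_eq_one_iff_mul_comm]
        exact h4.symm
      exact (QuotientGroup.eq_one_iff _).1 h5

/-- a finitely generated group which is not virtually nilpotent has a quotient which is not
virtually nilpotent, but all whose proper quotients are -/
theorem exists_jn (hG : Group.FG G) (hvn : ¬ VirtNilp G) :
    ∃ (N : Subgroup G) (_ : N.Normal), ¬ VirtNilp (G ⧸ N) ∧
      ∀ M : Subgroup (G ⧸ N), [M.Normal] → M ≠ ⊥ → VirtNilp ((G ⧸ N) ⧸ M) := by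
  let 𝒮 : Set (Subgroup G) := {N | ∃ _ : N.Normal, ¬ VirtNilp (G ⧸ N)}
  have h0 : (⊥ : Subgroup G) ∈ 𝒮 := by
    refine ⟨inferInstance, fun h => hvn ?_⟩
    exact vn_of_finite ⊥ inferInstance h
  obtain ⟨N, hN0, hN⟩ := zorn_le_nonempty₀ 𝒮 (by
    intro c hc hchain y hy
    have hdir : DirectedOn (· ≤ ·) c := hchain.directedOn
    have hmem : ∀ x, x ∈ sSup c ↔ ∃ K ∈ c, x ∈ K :=
      fun x => Subgroup.mem_sSup_of_directedOn ⟨y, hy⟩ hdir
    have hnorm : (sSup c).Normal := by
      refine ⟨fun x hx g => ?_⟩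
      obtain ⟨K, hK, hxK⟩ := (hmem x).1 hx
      obtain ⟨hKn, -⟩ := hc hK
      exact (hmem _).2 ⟨K, hK, hKn.conj_mem x hxK g⟩
    refine ⟨sSup c, ⟨hnorm, fun h => ?_⟩, fun z hz => le_sSup hz⟩
    obtain ⟨H, hHn, hHf, n, hn⟩ := (vn_quot_iff _).1 h
    have hHfg : H.FG := (Group.fg_iff_subgroup_fg H).1 (Subgroup.fg_of_index_ne_zero H)
    obtain ⟨F, hF1, hF2⟩ := lcs_fin H hHfg n
    have h1 : ∀ F' : Finset G, (∀ f ∈ F', f ∈ sSup c) → ∃ K ∈ c, ∀ f ∈ F', f ∈ K := by
      classical
      intro F'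
      induction F' using Finset.induction_on with
      | empty => intro _; exact ⟨y, hy, by simp⟩
      | insert a F' _ ih =>
        intro hF'
        obtain ⟨K, hK, hK2⟩ := ih fun f hf => hF' f (Finset.mem_insert_of_mem hf)
        obtain ⟨L, hL, hL2⟩ := (hmem a).1 (hF' a (Finset.mem_insert_self _ _))
        obtain ⟨R, hR, hKR, hLR⟩ := hdir K hK L hL
        refine ⟨R, hR, fun f hf => ?_⟩
        rcases Finset.mem_insert.1 hf with rfl | hf
        · exact hLR hL2
        · exact hKR (hK2 f hf)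
    obtain ⟨K, hK, hK2⟩ := h1 F fun f hf => hn (hF1 f hf)
    obtain ⟨hKn, hKv⟩ := hc hK
    exact hKv ((vn_quot_iff K).2 ⟨H, hHn, hHf, n, hF2 K hKn hK2⟩)) ⊥ h0
  obtain ⟨⟨hNn, hNv⟩, hmax⟩ := hN
  refine ⟨N, hNn, hNv, ?_⟩
  intro M hM hMb
  by_contra hcon
  have h1 : (M.comap (QuotientGroup.mk' N)).Normal := inferInstance
  have h2 : ¬ VirtNilp (G ⧸ M.comap (QuotientGroup.mk' N)) := by
    intro h
    apply hcon
    let g : G ⧸ M.comap (QuotientGroup.mk' N) →* (G ⧸ N) ⧸ M :=
      QuotientGroup.map _ _ (QuotientGroup.mk' N) le_rfl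
    refine vn_of_surj h g ?_
    intro x
    obtain ⟨y, rfl⟩ := QuotientGroup.mk'_surjective _ x
    obtain ⟨z, rfl⟩ := QuotientGroup.mk'_surjective _ y
    exact ⟨QuotientGroup.mk z, rfl⟩
  have h3 : N ≤ M.comap (QuotientGroup.mk' N) := by
    intro x hx
    have : QuotientGroup.mk' N x = 1 := (QuotientGroup.eq_one_iff _).2 hx
    show QuotientGroup.mk' N x ∈ M
    rw [this]
    exact one_mem _
  have h4 : M.comap (QuotientGroup.mk' N) ≤ N := hmax ⟨h1, h2⟩ h3
  apply hMb
  rw [eq_bot_iff]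
  intro x hx
  obtain ⟨z, rfl⟩ := QuotientGroup.mk'_surjective _ x
  exact (QuotientGroup.eq_one_iff _).2 (h4 hx)

end Pool.Agent.W2helper38.FA
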