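import Pool.Agent.W2helper38.FA.Jn

/-!
# The reduction of the uniform gap problem to perfect groups
-/

set_option autoImplicit false

open scoped commutatorElement

namespace Pool.Agent.W2helper38.FA

open Pool.Agent.H45R3.UG Pool.Agent.W582.UG

/-- the assertion `Gap**(β)` within a class of groups -/
def GapSS (𝒞 : (G : Type) → [Group G] → Prop) (β : ℝ) : Prop :=
  ∃ f : ℕ → ℝ, (∀ m n : ℕ, 1 ≤ m → m ≤ n → f m ≤ f n) ∧
    (∃ C : ℕ, 1 ≤ C ∧ ∀ n : ℕ, 1 ≤ n → Real.exp ((n : ℝ) ^ β) ≤ f (C * n)) ∧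
    ∀ (G : Type) [Group G] (X : Finset G), Subgroup.closure (X : Set G) = ⊤ → 𝒞 G →
      ¬ VirtNilp G → ∀ n : ℕ, 1 ≤ n → f n ≤ ((ball X n).ncard : ℝ)

/-- the form with a constant -/
def GapC (𝒞 : (G : Type) → [Group G] → Prop) (β : ℝ) : Prop :=
  ∃ c : ℝ, 0 < c ∧ ∀ (G : Type) [Group G] (X : Finset G), Subgroup.closure (X : Set G) = ⊤ →
    𝒞 G → ¬ VirtNilp G → ∀ n : ℕ, 1 ≤ n → Real.exp (c * (n : ℝ) ^ β) ≤ ((ball X n).ncard : ℝ)

lemma gapSS_iff {𝒞 : (G : Type) → [Group G] → Prop} {β : ℝ} (hβ : 0 < β) :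
    GapSS 𝒞 β ↔ GapC 𝒞 β := by
  constructor
  · rintro ⟨f, hf1, ⟨C, hC, hf2⟩, hf3⟩
    have hC0 : (0 : ℝ) < C := by exact_mod_cast hC
    have hlog : 0 < Real.log 2 := Real.log_pos (by norm_num)
    have h2C : (0 : ℝ) < (2 * C) ^ β := Real.rpow_pos_of_pos (by positivity) _
    have hCβ : (0 : ℝ) < (C : ℝ) ^ β := Real.rpow_pos_of_pos hC0 _
    refine ⟨min (Real.log 2 / (C : ℝ) ^ β) (1 / (2 * C) ^ β), lt_min (by positivity) (by positivity),
      ?_⟩
    intro G _ X hX hG hvn n hn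
    have hn0 : (0 : ℝ) ≤ (n : ℝ) ^ β := by positivity
    by_cases hnC : n < C
    · have h1 : (n : ℝ) ^ β ≤ (C : ℝ) ^ β :=
        Real.rpow_le_rpow (by positivity) (by exact_mod_cast hnC.le) hβ.le
      calc Real.exp (min (Real.log 2 / (C : ℝ) ^ β) (1 / (2 * C) ^ β) * (n : ℝ) ^ β)
          ≤ Real.exp (Real.log 2) := by
            apply Real.exp_le_exp.2
            calc min (Real.log 2 / (C : ℝ) ^ β) (1 / (2 * C) ^ β) * (n : ℝ) ^ β
                ≤ Real.log 2 / (C : ℝ) ^ β * (C : ℝ) ^ β :=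
                  mul_le_mul (min_le_left _ _) h1 hn0 (by positivity)
              _ = Real.log 2 := by field_simp
        _ = 2 := Real.exp_log (by norm_num)
        _ ≤ ((ball X n).ncard : ℝ) := by
            exact_mod_cast two_le_ball hX (nontrivial_of_not_vn hvn) hn
    · push Not at hnC
      have hq1 : 1 ≤ n / C := (Nat.one_le_div_iff (by omega)).2 hnC
      have hq2 : C * (n / C) ≤ n := Nat.mul_div_le n C
      have hq3 : n < C * (n / C + 1) := Nat.lt_mul_div_succ n (by omega)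
      have hq4 : n ≤ 2 * C * (n / C) := by nlinarith
      have hq5 : (n : ℝ) / (2 * C) ≤ ((n / C : ℕ) : ℝ) := by
        rw [div_le_iff₀ (by positivity)]
        have : (n : ℝ) ≤ 2 * C * ((n / C : ℕ) : ℝ) := by exact_mod_cast hq4
        linarith
      calc Real.exp (min (Real.log 2 / (C : ℝ) ^ β) (1 / (2 * C) ^ β) * (n : ℝ) ^ β)
          ≤ Real.exp (((n / C : ℕ) : ℝ) ^ β) := by
            apply Real.exp_le_exp.2
            calc min (Real.log 2 / (C : ℝ) ^ β) (1 / (2 * C) ^ β) * (n : ℝ) ^ β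
                ≤ 1 / (2 * C) ^ β * (n : ℝ) ^ β := mul_le_mul_of_nonneg_right (min_le_right _ _) hn0
              _ = ((n : ℝ) / (2 * C)) ^ β := by
                  rw [Real.div_rpow (by positivity) (by positivity)]
                  ring
              _ ≤ _ := Real.rpow_le_rpow (by positivity) hq5 hβ.le
        _ ≤ f (C * (n / C)) := hf2 _ hq1
        _ ≤ f n := hf1 _ _ (by nlinarith) hq2
        _ ≤ _ := hf3 G X hX hG hvn n hn
  · rintro ⟨c, hc, h⟩
    obtain ⟨C, hC⟩ := exists_nat_ge ((1 / c) ^ (1 / β))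
    have hC0 : (0 : ℝ) < (1 / c) ^ (1 / β) := Real.rpow_pos_of_pos (by positivity) _
    have hC1 : 1 ≤ C := by
      have : (0 : ℝ) < C := lt_of_lt_of_le hC0 hC
      exact_mod_cast this
    have hC2 : 1 ≤ c * (C : ℝ) ^ β := by
      have h1 : 1 / c ≤ (C : ℝ) ^ β := by
        calc 1 / c = ((1 / c) ^ (1 / β)) ^ β := by
              rw [← Real.rpow_mul (by positivity), one_div_mul_cancel hβ.ne', Real.rpow_one]
          _ ≤ (C : ℝ) ^ β := Real.rpow_le_rpow hC0.le hC hβ.le
      rw [div_le_iff₀ hc] at h1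
      linarith
    refine ⟨fun n => Real.exp (c * (n : ℝ) ^ β), ?_, ⟨C, hC1, ?_⟩, h⟩
    · intro m n _ hmn
      apply Real.exp_le_exp.2
      apply mul_le_mul_of_nonneg_left _ hc.le
      exact Real.rpow_le_rpow (by positivity) (by exact_mod_cast hmn) hβ.le
    · intro n _
      apply Real.exp_le_exp.2
      push_cast
      rw [Real.mul_rpow (by positivity) (by positivity), ← mul_assoc]
      have : (0 : ℝ) ≤ (n : ℝ) ^ β := by positivity
      nlinarith

/-- the generators of a subgroup, as a subset of the subgroup -/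
lemma exists_gens {G : Type} [Group G] (S : Finset G) :
    ∃ Y : Finset (Subgroup.closure (S : Set G)), 
      Subgroup.closure (Y : Set (Subgroup.closure (S : Set G))) = ⊤ ∧
      ∀ n, (ball Y n).ncard ≤ (ball S n).ncard := by
  classical
  have hSK : ∀ s ∈ S, s ∈ Subgroup.closure (S : Set G) := fun s hs => Subgroup.subset_closure hs
  let Y : Finset (Subgroup.closure (S : Set G)) := S.attach.image fun s => ⟨s.1, hSK s.1 s.2⟩
  have hYS : (Y : Set (Subgroup.closure (S : Set G))) = Subtype.val ⁻¹' (S : Set G) := by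
    ext x
    constructor
    · intro hx
      obtain ⟨s, -, hs⟩ := Finset.mem_image.1 (Finset.mem_coe.1 hx)
      rw [← hs]
      exact s.2
    · intro hx
      exact Finset.mem_coe.2 (Finset.mem_image.2 ⟨⟨x.1, hx⟩, Finset.mem_attach _ _, rfl⟩)
  refine ⟨Y, ?_, ?_⟩
  · apply Subgroup.map_injective (Subgroup.subtype_injective _)
    rw [MonoidHom.map_closure, ← MonoidHom.range_eq_map, Subgroup.range_subtype]
    congr 1
    rw [hYS]
    ext x
    constructor
    · rintro ⟨y, hy, rfl⟩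
      exact hy
    · intro hx
      exact ⟨⟨x, hSK x hx⟩, hx, rfl⟩
  · intro n
    rw [← Set.ncard_image_of_injective _ Subtype.val_injective]
    apply Set.ncard_le_ncard _ (ball_finite _ _)
    rintro _ ⟨x, ⟨l, h1, h2, rfl⟩, rfl⟩
    refine ⟨l.map Subtype.val, by simpa using h1, ?_, ?_⟩
    · intro z hz
      obtain ⟨w, hw, rfl⟩ := List.mem_map.1 hz
      rcases h2 w hw with h | h
      · left
        have : w ∈ (Y : Set (Subgroup.closure (S : Set G))) := h
        rw [hYS] at this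
        exact this
      · right
        have : w⁻¹ ∈ (Y : Set (Subgroup.closure (S : Set G))) := h
        rw [hYS] at this
        exact this
    · exact (map_list_prod (Subgroup.closure (S : Set G)).subtype l).symm

/-- `P` is perfect, has property (FA), and all its proper quotients are virtually nilpotent. -/
def Crit (P : Type) [Group P] : Prop :=
  ⁅(⊤ : Subgroup P), (⊤ : Subgroup P)⁆ = ⊤ ∧ PropFA P ∧
    ∀ (M : Subgroup P) [M.Normal], M ≠ ⊥ → VirtNilp (P ⧸ M)

theorem reduction {β : ℝ} (hβ : 0 < β) (hβ1 : β ≤ 1) (h : GapC (fun P _ => Crit P) β) :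
    GapC (fun _ _ => True) β := by
  classical
  obtain ⟨c, hc, h⟩ := h
  have hlog : 0 < Real.log 2 := Real.log_pos (by norm_num)
  set c₂ := min c (Real.log 2 / 12) with hc₂
  have hc₂0 : 0 < c₂ := lt_min hc (by positivity)
  refine ⟨c₂ / 12, by positivity, ?_⟩
  intro G _ X hX _ hvn n hn
  have hnβ : (0 : ℝ) ≤ (n : ℝ) ^ β := by positivity
  have hnβ1 : (n : ℝ) ^ β ≤ n := by
    calc (n : ℝ) ^ β ≤ (n : ℝ) ^ (1 : ℝ) :=
          Real.rpow_le_rpow_of_exponent_le (by exact_mod_cast hn) hβ1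
      _ = n := Real.rpow_one _
  have hPvn := Pf_not_vn X hX hvn
  obtain ⟨Y, hY, hYb⟩ : ∃ Y : Finset (Pf X), Subgroup.closure (Y : Set (Pf X)) = ⊤ ∧
      ∀ n, (ball Y n).ncard ≤ (ball (gens X) n).ncard := exists_gens (gens X)
  have hPfg : Group.FG (Pf X) := Group.fg_def.2 ⟨Y, hY⟩
  have hPp : ⁅(⊤ : Subgroup (Pf X)), (⊤ : Subgroup (Pf X))⁆ = ⊤ := by
    apply Subgroup.map_injective (Subgroup.subtype_injective (Pf X))
    rw [Subgroup.map_commutator, ← MonoidHom.range_eq_map, Subgroup.range_subtype, perfect_Pf]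
  obtain ⟨N, hNn, hNv, hN⟩ := exists_jn hPfg hPvn
  let π : Pf X →* Pf X ⧸ N := QuotientGroup.mk' N
  have hπ : Function.Surjective π := QuotientGroup.mk'_surjective N
  have hQgen := closure_image π hπ hY
  have hQp : ⁅(⊤ : Subgroup (Pf X ⧸ N)), (⊤ : Subgroup (Pf X ⧸ N))⁆ = ⊤ := by
    have := range_perfect π hPp
    rwa [MonoidHom.range_eq_top.2 hπ] at this
  have hQ : Real.exp (c₂ * (n : ℝ) ^ β) ≤ ((ball (Y.image π) n).ncard : ℝ) := by
    by_cases hFA : PropFA (Pf X ⧸ N)
    · refine le_trans ?_ (h (Pf X ⧸ N) (Y.image π) hQgen ⟨hQp, hFA, fun M _ hM => hN M hM⟩ hNv n hn)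
      exact Real.exp_le_exp.2 (mul_le_mul_of_nonneg_right (min_le_left _ _) hnβ)
    · have h1 : ∀ m, 2 ^ m ≤ (ball (Y.image π) (m * 6)).ncard := by
        unfold PropFA at hFA
        push Not at hFA
        obtain ⟨V, _, T, hT, hact, -, hfix⟩ := hFA
        exact ball_of_tree hT hact hQp _ hQgen (by push Not; exact hfix)
      have h2 : c₂ * (n : ℝ) ^ β ≤ Real.log 2 / 12 * n :=
        mul_le_mul (min_le_right _ _) hnβ1 hnβ (by positivity)
      by_cases hn12 : n < 12
      · calc Real.exp (c₂ * (n : ℝ) ^ β) ≤ Real.exp (Real.log 2) := by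
              apply Real.exp_le_exp.2
              have : (n : ℝ) ≤ 12 := by exact_mod_cast hn12.le
              nlinarith
          _ = 2 := Real.exp_log (by norm_num)
          _ ≤ _ := by exact_mod_cast two_le_ball hQgen (nontrivial_of_not_vn hNv) hn
      · push Not at hn12
        have h3 : n ≤ 12 * (n / 6) := by omega
        have h4 : (n : ℝ) ≤ 12 * ((n / 6 : ℕ) : ℝ) := by exact_mod_cast h3
        calc Real.exp (c₂ * (n : ℝ) ^ β) ≤ Real.exp (Real.log 2 * ((n / 6 : ℕ) : ℝ)) := by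
              apply Real.exp_le_exp.2
              nlinarith
          _ = 2 ^ (n / 6) := by
              rw [Real.exp_mul, Real.exp_log (by norm_num), Real.rpow_natCast]
          _ ≤ ((ball (Y.image π) ((n / 6) * 6)).ncard : ℝ) := by exact_mod_cast h1 (n / 6)
          _ ≤ _ := by
              exact_mod_cast Set.ncard_le_ncard (ball_mono (Nat.div_mul_le_self n 6))
                (ball_finite _ _)
  have hb2 : 2 ≤ (ball X n).ncard := two_le_ball hX (nontrivial_of_not_vn hvn) hn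
  have h5 : (ball (Y.image π) n).ncard ≤ (ball X n).ncard ^ 12 := by
    calc (ball (Y.image π) n).ncard ≤ (ball Y n).ncard := ball_image π Y n
      _ ≤ (ball (gens X) n).ncard := hYb n
      _ ≤ 120 * (ball X n).ncard ^ 5 := ball_gens X n
      _ ≤ (ball X n).ncard ^ 7 * (ball X n).ncard ^ 5 := by
          apply Nat.mul_le_mul_right
          calc 120 ≤ 2 ^ 7 := by norm_num
            _ ≤ _ := Nat.pow_le_pow_left hb2 7
      _ = (ball X n).ncard ^ 12 := by rw [← pow_add]
  have h6 : Real.exp (c₂ * (n : ℝ) ^ β) ≤ ((ball X n).ncard : ℝ) ^ 12 :=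
    hQ.trans (by exact_mod_cast h5)
  have h7 : Real.exp (c₂ * (n : ℝ) ^ β) = Real.exp (c₂ / 12 * (n : ℝ) ^ β) ^ 12 := by
    rw [← Real.exp_nat_mul]
    congr 1
    push_cast
    ring
  rw [h7] at h6
  exact le_of_pow_le_pow_left₀ (by norm_num) (by positivity) h6

/-- the equivalence, for the definition of the problem -/
theorem reduction_iff {β : ℝ} (hβ : 0 < β) (hβ1 : β ≤ 1) :
    GapSS (fun _ _ => True) β ↔ GapSS (fun P _ => Crit P) β := by
  rw [gapSS_iff hβ, gapSS_iff hβ]
  refine ⟨?_, reduction hβ hβ1⟩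
  rintro ⟨c, hc, h⟩
  exact ⟨c, hc, fun G _ X hX _ hvn n hn => h G X hX trivial hvn n hn⟩

end Pool.Agent.W2helper38.FA
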