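import Pool.Agent.T6.H46.RR.Tree

/-!
# Short free semigroups in perfect groups acting on trees
-/

set_option autoImplicit false

open scoped commutatorElement

namespace Pool.Agent.W2helper38.FA

open Pool.Agent.T6.H67.TA Pool.Agent.T6.H46.RR

variable {V : Type} {T : SimpleGraph V} (hT : T.IsTree) {K : Type} [Group K] [MulAction K V]
  (hact : ∀ (g : K) (u v : V), T.Adj u v → T.Adj (g • u) (g • v))

include hT hact in
/-- in a perfect group all displacements are even -/
theorem even_of_perfect (hperf : ⁅(⊤ : Subgroup K), (⊤ : Subgroup K)⁆ = ⊤) (g : K) (p : V) :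
    Even (D T p (g • p)) := by
  have hmul : ∀ a b : K, Even (D T p ((a * b) • p) - (D T p (a • p) + D T p (b • p))) := by
    intro a b
    obtain ⟨r, hr⟩ := D_parity hT p (a⁻¹ • p) (b • p)
    have h1 := D_mul hT hact a b p
    unfold P at h1
    refine ⟨-r, ?_⟩
    have : D T p ((a * b) • p) - (D T p (a • p) + D T p (b • p)) =
      - (D T p (a⁻¹ • p) + D T p (b • p) - D T (a⁻¹ • p) (b • p)) := by
      rw [h1]; ring
    rw [this, hr]; ring
  let f : K →* Multiplicative (ZMod 2) :=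
    MonoidHom.mk' (fun h => Multiplicative.ofAdd ((D T p (h • p) : ℤ) : ZMod 2)) (by
      intro a b
      rw [← ofAdd_add]
      congr 1
      have h1 := hmul a b
      have h2 : ((D T p ((a * b) • p) - (D T p (a • p) + D T p (b • p)) : ℤ) : ZMod 2) = 0 := by
        rw [ZMod.intCast_zmod_eq_zero_iff_dvd]
        exact_mod_cast h1.two_dvd
      push_cast at h2
      exact sub_eq_zero.1 h2)
  have h1 : (⊤ : Subgroup K) ≤ f.ker := by
    rw [← hperf]
    exact Abelianization.commutator_subset_ker f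
  have h2 : f g = 1 := h1 (Subgroup.mem_top g)
  have h3 : ((D T p (g • p) : ℤ) : ZMod 2) = 0 := h2
  rw [ZMod.intCast_zmod_eq_zero_iff_dvd] at h3
  exact even_iff_two_dvd.2 (by exact_mod_cast h3)

include hT in
lemma dz {p x x' y y' : V} (hx : 0 < P T p x x') (hy : 0 < P T p y y') (h : P T p x' y' = 0) :
    P T p x y = 0 := by
  have h1 : P T p x y' = 0 := dir_ne hT (x := x') (by rw [P_comm]; exact hx) h
  have h2 : P T p y x = 0 :=
    dir_ne hT (x := y') (by rw [P_comm]; exact hy) (by rw [P_comm]; exact h1)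
  rw [P_comm]; exact h2

include hT hact in
/-- the projection of `u` to the axis of `h` -/
theorem proj {h : K} {o u : V} (ho : OnAxis T h o) {C : ℤ} {m : ℕ} (hm1 : 1 ≤ m)
    (hm : C + 2 * D T o (h • o) ≤ 2 * (m * D T o (h • o)))
    (h1 : P T o u ((h⁻¹ ^ m) • o) = 0) (h2 : P T o u ((h ^ m) • o) ≤ C) :
    ∃ p : V, OnAxis T h p ∧ 2 * D T o p ≤ C ∧ P T p u (h • p) = 0 ∧ P T p u (h⁻¹ • p) = 0 := by
  have hoi := ho.inv hT hact
  set ℓ := D T o (h • o) with hℓ
  have hℓ1 : 0 < ℓ := ho.1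
  have hℓi : D T o (h⁻¹ • o) = ℓ := D_inv hT hact h o
  obtain ⟨M, hM⟩ : ∃ M : ℤ, M = (m : ℤ) * ℓ := ⟨_, rfl⟩
  have hM1 : ((m : ℤ) + 1) * ℓ = M + ℓ := by rw [hM]; ring
  set t := (h ^ m) • o with ht
  set s := (h⁻¹ ^ m) • o with hs
  set t' := (h ^ (m + 1)) • o with ht'
  set s' := (h⁻¹ ^ (m + 1)) • o with hs'
  have eot : D T o t = M := by rw [ht, D_pow hT hact ho, hM]
  have eos : D T o s = M := by rw [hs, D_pow hT hact hoi, hM, hℓi]
  have est : D T s t = M + M := by
    rw [D_comm, ht, hs, D_pow_inv hT hact ho, hM]; ring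
  have est' : D T s t' = M + M + ℓ := by
    rw [D_comm, ht', hs, D_pow_inv hT hact ho, hM]; push_cast; ring
  have es't' : D T s' t' = M + M + ℓ + ℓ := by
    rw [D_comm, ht', hs', D_pow_inv hT hact ho, hM]; push_cast; ring
  have ett' : D T t t' = ℓ := by
    rw [ht, ht', D_pow_pow hT hact ho (Nat.le_succ m)]; push_cast; ring
  have hht : h • t = t' := by rw [ht, ht', smul_smul, ← pow_succ']
  have hhs : h⁻¹ • s = s' := by rw [hs, hs', smul_smul, ← pow_succ']
  obtain ⟨m', rfl⟩ : ∃ m', m = m' + 1 := ⟨m - 1, by omega⟩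
  have hhs2 : h • s = (h⁻¹ ^ m') • o := by
    rw [hs, smul_smul, pow_succ', ← mul_assoc, mul_inv_cancel, one_mul]
  have eohs : D T o (h • s) = M - ℓ := by
    rw [hhs2, D_pow hT hact hoi, hM, hℓi]; push_cast; ring
  have eshs : D T s (h • s) = ℓ := by
    have : h • s = (h⁻¹ ^ (m' + 1)) • (h • o) := by
      rw [hs, smul_smul, smul_smul, ← ((Commute.refl h).inv_right.pow_right (m' + 1)).eq]
    rw [this, hs, D_smul hT hact]
  obtain ⟨r, hr⟩ := D_parity hT o u t
  have hr' : P T o u t = r + r := hr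
  have hr0 : 0 ≤ r := by
    have := P_nonneg hT o u t
    omega
  have hrC : 2 * r ≤ C := by omega
  have hrM : r + ℓ ≤ M := by
    rw [← hM] at hm
    omega
  obtain ⟨p, hp1, hp2⟩ := exists_between hT o t r.toNat (by
    rw [Int.toNat_of_nonneg hr0, eot]; omega)
  rw [Int.toNat_of_nonneg hr0] at hp1 hp2
  rw [eot] at hp2
  have hpt : P T o p t = r + r := by unfold P; rw [hp1, hp2, eot]; ring
  have hpu : r + r ≤ P T o p u := by
    have h3 := P_min hT o p u t
    rw [hpt, P_comm o t u, hr', min_self] at h3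
    exact h3
  have epu : D T p u = D T o u - r := by
    have h3 := D_tri hT o p u
    unfold P at hpu
    omega
  have hput : P T p u t = 0 := by
    unfold P at hr' ⊢
    rw [epu, hp2]
    rw [eot] at hr'
    omega
  have esp : D T s p = M + r := by
    have h3 := D_tri hT s o p
    have h4 := D_tri hT s p t
    rw [D_comm s o, eos, hp1] at h3
    rw [est, hp2] at h4
    omega
  have hpus : P T p u s = 0 := by
    unfold P at h1 ⊢
    rw [epu, D_comm p s, esp]
    rw [eos] at h1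
    omega
  have ept' : D T p t' = M + ℓ - r := by
    have h3 := D_tri hT p t t'
    have h4 := D_tri hT s p t'
    rw [hp2, ett'] at h3
    rw [est', esp] at h4
    omega
  have ehpt' : D T (h • p) t' = M - r := by rw [← hht, D_smul hT hact, hp2]
  have eshp : D T s (h • p) = M + ℓ + r := by
    have h3 := D_tri hT s (h • s) (h • p)
    have h4 := D_tri hT s (h • p) t'
    rw [eshs, D_smul hT hact, esp] at h3
    rw [est', ehpt'] at h4
    omega
  have ephp : D T p (h • p) = ℓ := by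
    have h3 := D_on_geod hT (u := s) (v := t') (p := p) (q := h • p)
      (by rw [esp, ept', est']; ring) (by rw [eshp, ehpt', est']; ring) (by rw [esp, eshp]; omega)
    rw [h3, eshp, esp]; ring
  have hax : OnAxis T h p := by
    refine ⟨by rw [ephp]; exact hℓ1, ?_⟩
    have h3 := D_tri hT s' (h⁻¹ • p) t'
    have h4 := D_tri hT (h⁻¹ • p) (h • p) t'
    have h5 : D T s' (h⁻¹ • p) = M + r := by rw [← hhs, D_smul hT hact, esp]
    rw [h5, es't'] at h3
    rw [ehpt'] at h4
    have h6 := P_nonneg hT p (h • p) (h⁻¹ • p)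
    have h7 := D_inv hT hact h p
    rw [ephp] at h7
    rw [D_comm (h⁻¹ • p) (h • p)] at h4
    unfold P at h6 ⊢
    rw [ephp, h7] at h6 ⊢
    omega
  have ehpt : D T (h • p) t = M - ℓ - r := by
    have h3 := D_on_geod hT (u := s) (v := t') (p := h • p) (q := t)
      (by rw [eshp, ehpt', est']; ring) (by rw [est, ett', est']) (by rw [eshp, est]; omega)
    rw [h3, eshp, est]; ring
  have d1 : 0 < P T p t (h • p) := by
    unfold P
    rw [hp2, ephp, D_comm t, ehpt]
    omega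
  have d2 : 0 < P T p s (h⁻¹ • p) := by
    have h3 : D T s (h⁻¹ • p) = D T (h • s) p := by
      have := D_smul hT hact h s (h⁻¹ • p)
      rw [smul_inv_smul] at this
      exact this.symm
    have h4 := D_tri hT (h • s) o p
    rw [D_comm (h • s) o, eohs, hp1] at h4
    unfold P
    rw [D_comm p s, esp, D_inv hT hact, ephp, h3]
    omega
  refine ⟨p, hax, by rw [hp1]; exact hrC, ?_, ?_⟩
  · rw [P_comm]
    exact dir_ne hT d1 (by rw [P_comm]; exact hput)
  · rw [P_comm]
    exact dir_ne hT d2 (by rw [P_comm]; exact hpus)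

include hT hact in
/-- the direction of `(y h y⁻¹) p` -/
theorem leave {h y : K} {o p : V} (ho : OnAxis T h o) {C : ℤ} (hC : 0 ≤ C)
    (hop : 2 * D T o p ≤ C) {N : ℕ} (hN : D T o (y • o) + C + 1 ≤ N)
    (h1 : P T p (y • (h ^ N) • o) (h • p) = 0) (h2 : P T p (y • (h ^ N) • o) (h⁻¹ • p) = 0) :
    0 < D T p ((y * h * y⁻¹) • p) ∧
      P T p ((y * h * y⁻¹) • p) (h • p) = 0 ∧ P T p ((y * h * y⁻¹) • p) (h⁻¹ • p) = 0 := by
  set a := D T o (y • o) with ha
  set ℓ := D T o (h • o) with hℓ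
  have hℓ1 : 1 ≤ ℓ := ho.1
  have ha0 : 0 ≤ a := D_nonneg _ _
  obtain ⟨U, hU⟩ : ∃ U : ℕ → V, U = fun n => y • (h ^ n) • o := ⟨_, rfl⟩
  have hU' : ∀ n, y • (h ^ n) • o = U n := fun n => by rw [hU]
  rw [hU'] at h1 h2
  have hyU : ∀ n : ℕ, D T (y • o) (U n) = n * ℓ := by
    intro n
    rw [← hU', D_smul hT hact, D_pow hT hact ho]
  have hUU : ∀ k n : ℕ, k ≤ n → D T (U k) (U n) = (n - k) * ℓ := by
    intro k n hkn
    rw [← hU', ← hU', D_smul hT hact, D_pow_pow hT hact ho hkn]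
  have hoU : ∀ n : ℕ, n * ℓ - a ≤ D T o (U n) := by
    intro n
    have := D_tri hT (y • o) o (U n)
    rw [hyU, D_comm (y • o) o, ← ha] at this
    omega
  set g := y * h * y⁻¹ with hg
  have hgU : ∀ n, g • U n = U (n + 1) := by
    intro n
    rw [← hU', ← hU', hg, mul_smul, inv_smul_smul, mul_smul, smul_smul h, ← pow_succ']
  obtain ⟨n, hNn, hn⟩ : ∃ n, N ≤ n ∧ D T p (U n) < D T p (U (n + 1)) := by
    by_contra hcon
    push Not at hcon
    have h3 : ∀ j, D T p (U (N + j)) ≤ D T p (U N) := by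
      intro j
      induction j with
      | zero => simp
      | succ j ih => exact (hcon (N + j) (by omega)).trans ih
    have h4 := h3 (D T p (U N) + D T p (y • o) + 1).toNat
    have h5 := D_tri hT (y • o) p (U (N + (D T p (U N) + D T p (y • o) + 1).toNat))
    rw [hyU] at h5
    have h6 := Int.self_le_toNat (D T p (U N) + D T p (y • o) + 1)
    have h7 : (0 : ℤ) ≤ (N : ℤ) := by positivity
    have h8 : (0 : ℤ) ≤ ((D T p (U N) + D T p (y • o) + 1).toNat : ℤ) := by positivity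
    rw [D_comm (y • o) p] at h5
    push_cast at h5
    nlinarith
  have d1 : 0 < P T p (g • p) (U (n + 1)) := by
    unfold P
    have h3 : D T (g • p) (U (n + 1)) = D T p (U n) := by rw [← hgU, D_smul hT hact]
    have h4 := D_nonneg (T := T) p (g • p)
    rw [h3]
    omega
  have d2 : 0 < P T p (U (n + 1)) (U N) := by
    have h3 := P_base hT o p (U (n + 1)) (U N)
    have h4 : 2 * (N * ℓ) - 2 * a ≤ P T o (U (n + 1)) (U N) := by
      have e1 := hoU (n + 1)
      have e2 := hoU N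
      unfold P
      rw [D_comm (U (n + 1)) (U N), hUU N (n + 1) (by omega)]
      push_cast at e1 ⊢
      nlinarith
    have h5 : D T o (y • o) + C + 1 ≤ N * ℓ := by
      have : (0 : ℤ) ≤ (N : ℤ) := by positivity
      nlinarith
    omega
  have d3 : 0 < P T p (U N) (g • p) := by
    rw [P_comm]
    exact dir_trans hT d1 d2
  refine ⟨?_, dir_ne hT d3 h1, dir_ne hT d3 h2⟩
  by_contra hcon
  have h0 : g • p = p := (D_eq_zero hT (le_antisymm (not_lt.1 hcon) (D_nonneg _ _))).symm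
  rw [h0, P_comm, P_self_left] at d3
  omega

include hT hact in
/-- a point of the axis of `h` at which the axis of `y h y⁻¹` leaves -/
theorem exists_leave {h y : K} {o : V} (ho : OnAxis T h o) {C : ℤ}
    (h1 : ∀ n m : ℕ, P T o (y • (h ^ n) • o) ((h ^ m) • o) ≤ C)
    (h2 : ∀ n m : ℕ, P T o (y • (h ^ n) • o) ((h⁻¹ ^ m) • o) ≤ C) :
    ∃ p : V, OnAxis T h p ∧ 0 < D T p ((y * h * y⁻¹) • p) ∧
      P T p ((y * h * y⁻¹) • p) (h • p) = 0 ∧ P T p ((y * h * y⁻¹) • p) (h⁻¹ • p) = 0 := by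
  have hC : 0 ≤ C := (P_nonneg hT _ _ _).trans (h1 0 0)
  have hℓ1 : 1 ≤ D T o (h • o) := ho.1
  obtain ⟨N, hN⟩ : ∃ N : ℕ, D T o (y • o) + C + 1 ≤ N :=
    ⟨(D T o (y • o) + C + 1).toNat, Int.self_le_toNat _⟩
  obtain ⟨m, hm⟩ : ∃ m : ℕ, (m : ℤ) = C + 1 := ⟨(C + 1).toNat, Int.toNat_of_nonneg (by omega)⟩
  have hm1 : 1 ≤ m := by omega
  have hmC : C + 2 * D T o (h • o) ≤ 2 * (m * D T o (h • o)) := by
    rw [hm]
    nlinarith
  have hopp := P_pow_opp hT hact ho m m
  obtain ⟨p, hp, hop, e1, e2⟩ : ∃ p : V, OnAxis T h p ∧ 2 * D T o p ≤ C ∧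
      P T p (y • (h ^ N) • o) (h • p) = 0 ∧ P T p (y • (h ^ N) • o) (h⁻¹ • p) = 0 := by
    by_cases hc : P T o (y • (h ^ N) • o) ((h⁻¹ ^ m) • o) = 0
    · exact proj hT hact ho hm1 hmC hc (h1 N m)
    · have hc' : P T o (y • (h ^ N) • o) ((h ^ m) • o) = 0 := by
        have h3 : 0 < P T o ((h⁻¹ ^ m) • o) (y • (h ^ N) • o) := by
          rw [P_comm]
          exact lt_of_le_of_ne (P_nonneg hT _ _ _) (Ne.symm hc)
        exact dir_ne hT h3 (by rw [P_comm]; exact hopp)
      obtain ⟨p, q1, q2, q3, q4⟩ := proj hT hact (h := h⁻¹) (u := y • (h ^ N) • o) (C := C)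
        (ho.inv hT hact) hm1 (by rw [D_inv hT hact]; exact hmC) (by rw [inv_inv]; exact hc')
        (h2 N m)
      rw [inv_inv] at q4
      have q1' := q1.inv hT hact
      rw [inv_inv] at q1'
      exact ⟨p, q1', q2, q4, q3⟩
  obtain ⟨l1, l2, l3⟩ := leave hT hact ho hC hop hN e1 e2
  exact ⟨p, hp, l1, l2, l3⟩

include hT hact in
/-- the configuration gives a free semigroup -/
theorem pp_of_leave {h g : K} {p : V} (hp : OnAxis T h p) (hg : 0 < D T p (g • p))
    (h1 : P T p (g • p) (h • p) = 0) (h2 : P T p (g • p) (h⁻¹ • p) = 0) :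
    PP T p (h * g) (h⁻¹ * g) ∨ PP T p h g ∨ PP T p h⁻¹ g := by
  have h3 : 0 < D T p (h⁻¹ • p) := by rw [D_inv hT hact]; exact hp.1
  have hgi : 0 < D T p (g⁻¹ • p) := by rw [D_inv hT hact]; exact hg
  by_cases hc : P T p (g • p) (g⁻¹ • p) = 0
  · right
    by_cases hd : P T p (g⁻¹ • p) (h • p) = 0
    · left
      exact ⟨hp.1, hg, by rw [P_comm]; exact hp.2, by rw [P_comm]; exact h2, hd,
        by rw [P_comm]; exact hc, by rw [P_comm]; exact h1⟩
    · right
      have h4 : 0 < P T p (h • p) (g⁻¹ • p) := by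
        rw [P_comm]
        exact lt_of_le_of_ne (P_nonneg hT _ _ _) (Ne.symm hd)
      have h5 := dir_ne hT h4 hp.2
      exact ⟨h3, hg, by rw [inv_inv]; exact hp.2, by rw [inv_inv, P_comm]; exact h1, h5,
        by rw [P_comm]; exact hc, by rw [P_comm]; exact h2⟩
  · left
    have h4 : 0 < P T p (g • p) (g⁻¹ • p) := lt_of_le_of_ne (P_nonneg hT _ _ _) (Ne.symm hc)
    have h5 := dir_ne hT h4 h1
    have h6 := dir_ne hT h4 h2
    have c1 : P T p (h⁻¹ • p) (g • p) = 0 := by rw [P_comm]; exact h2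
    have c2 : P T p ((h⁻¹)⁻¹ • p) (g • p) = 0 := by rw [inv_inv, P_comm]; exact h1
    have c3 : P T p ((g⁻¹)⁻¹ • p) (h⁻¹ • p) = 0 := by rw [inv_inv]; exact h2
    have c4 : P T p ((g⁻¹)⁻¹ • p) (h • p) = 0 := by rw [inv_inv]; exact h1
    have a1 : 0 < P T p ((h * g) • p) (h • p) := by
      rw [dir_mul hT hact h g p c1]; have := hp.1; omega
    have b1 : 0 < P T p ((h⁻¹ * g) • p) (h⁻¹ • p) := by
      rw [dir_mul hT hact h⁻¹ g p c2]; omega
    have a2 : 0 < P T p ((h * g)⁻¹ • p) (g⁻¹ • p) := by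
      rw [mul_inv_rev, dir_mul hT hact g⁻¹ h⁻¹ p c3]; omega
    have b2 : 0 < P T p ((h⁻¹ * g)⁻¹ • p) (g⁻¹ • p) := by
      rw [mul_inv_rev, inv_inv, dir_mul hT hact g⁻¹ h p c4]; omega
    refine ⟨?_, ?_, dz hT a2 a1 h5, dz hT a2 b1 h6, dz hT b2 a1 h5, dz hT b2 b1 h6,
      dz hT a1 b1 hp.2⟩
    · rw [D_mul hT hact, c1]; have := hp.1; omega
    · rw [D_mul hT hact, c2]; omega

end Pool.Agent.W2helper38.FA
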