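import Pool.Agent.W2helper38.FA.Cls

/-!
# Embedding of the growth problem into perfect groups
-/

set_option autoImplicit false

open scoped commutatorElement

namespace Pool.Agent.W2helper38.FA

open Pool.Agent.H45R3.UG (VirtNilp ball ball_finite ball_mono one_mem_ball mul_mem_ball mem_ball_one
  inv_mem_ball_one inv_mem_ball ball_sub)

/-- the alternating group of degree 5 -/
abbrev A5 : Type := alternatingGroup (Fin 5)

/-- the wreath product of `G` and `A5` -/
abbrev W (G : Type) [Group G] : Type := (Fin 5 → G) ⋊[mulAutArrow] A5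

variable {G : Type} [Group G]

/-- the elements `σ ^ y`, with `y` in the coordinate `0` -/
def ψ (y : G) : A5 →* W G :=
  (MulAut.conj (SemidirectProduct.inl (Pi.mulSingle 0 y) : W G)).toMonoidHom.comp
    SemidirectProduct.inr

lemma ψ_right (y : G) (σ : A5) : (ψ y σ).right = σ := by
  simp [ψ]

lemma ψ_left (y : G) (σ : A5) (i : Fin 5) :
    (ψ y σ).left i = (if i = 0 then y else 1) * (if σ⁻¹ • i = 0 then y⁻¹ else 1) := by
  have h : ψ y σ = SemidirectProduct.inl (Pi.mulSingle 0 y) * SemidirectProduct.inr σ *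
      SemidirectProduct.inl (Pi.mulSingle 0 y⁻¹) := by
    rw [Pi.mulSingle_inv, map_inv]
    rfl
  have h2 : (ψ y σ).left = Pi.mulSingle 0 y * mulAutArrow σ (Pi.mulSingle 0 y⁻¹) := by
    rw [h]
    simp
  rw [h2]
  show (Pi.mulSingle 0 y : Fin 5 → G) i * (Pi.mulSingle 0 y⁻¹ : Fin 5 → G) (σ⁻¹ • i) = _
  rw [Pi.mulSingle_apply, Pi.mulSingle_apply]

lemma perfect_A5 : ⁅(⊤ : Subgroup A5), (⊤ : Subgroup A5)⁆ = ⊤ := by
  have := commutator_alternatingGroup_eq_top (α := Fin 5) (by simp)
  rwa [commutator_def] at this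

section
variable (X : Finset G)

open Classical in
/-- the generators of the perfect group -/
noncomputable def gens : Finset (W G) :=
  (insert 1 X ×ˢ (Finset.univ : Finset A5)).image fun q => ψ q.1 q.2

lemma mem_gens {w : W G} : w ∈ gens X ↔ ∃ (y : G) (σ : A5), (y = 1 ∨ y ∈ X) ∧ ψ y σ = w := by
  classical
  unfold gens
  simp only [Finset.mem_image, Finset.mem_product, Finset.mem_insert, Finset.mem_univ, and_true,
    Prod.exists]

/-- the perfect group -/
noncomputable def Pf : Subgroup (W G) := Subgroup.closure (gens X : Set (W G))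

lemma perfect_Pf : ⁅Pf X, Pf X⁆ = Pf X := by
  refine le_antisymm (Subgroup.commutator_le_self _) ?_
  conv_lhs => rw [Pf]
  rw [Subgroup.closure_le]
  intro w hw
  obtain ⟨y, σ, hy, rfl⟩ := (mem_gens X).1 hw
  have h1 : (ψ y).range ≤ Pf X := by
    rintro _ ⟨τ, rfl⟩
    exact Subgroup.subset_closure ((mem_gens X).2 ⟨y, τ, hy, rfl⟩)
  have h2 : ⁅(ψ y).range, (ψ y).range⁆ = (ψ y).range := range_perfect _ perfect_A5
  have h3 : ψ y σ ∈ ⁅(ψ y).range, (ψ y).range⁆ := by
    rw [h2]
    exact ⟨σ, rfl⟩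
  exact Subgroup.commutator_mono h1 h1 h3

lemma gens_ball {w : W G} (hw : w ∈ gens X ∨ w⁻¹ ∈ gens X) (i : Fin 5) :
    w.left i ∈ ball X 1 := by
  have key : ∀ w ∈ gens X, w.left i ∈ ball X 1 := by
    intro w hw
    obtain ⟨y, σ, hy, rfl⟩ := (mem_gens X).1 hw
    rw [ψ_left]
    have hy1 : y ∈ ball X 1 := by
      rcases hy with rfl | hy
      · exact one_mem_ball _
      · exact mem_ball_one hy
    have hy2 : y⁻¹ ∈ ball X 1 := by
      rcases hy with rfl | hy
      · rw [inv_one]; exact one_mem_ball _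
      · exact inv_mem_ball_one hy
    split_ifs
    · rw [mul_inv_cancel]; exact one_mem_ball _
    · rw [mul_one]; exact hy1
    · rw [one_mul]; exact hy2
    · rw [one_mul]; exact one_mem_ball _
  rcases hw with hw | hw
  · exact key w hw
  · apply key
    obtain ⟨y, σ, hy, h⟩ := (mem_gens X).1 hw
    refine (mem_gens X).2 ⟨y, σ⁻¹, hy, ?_⟩
    rw [map_inv, h, inv_inv]

lemma ball_left {w : W G} {n : ℕ} (hw : w ∈ ball (gens X) n) (i : Fin 5) :
    w.left i ∈ ball X n := by
  obtain ⟨l, h1, h2, rfl⟩ := hw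
  have key : ∀ l : List (W G), (∀ x ∈ l, x ∈ gens X ∨ x⁻¹ ∈ gens X) → ∀ i,
      l.prod.left i ∈ ball X l.length := by
    intro l
    induction l with
    | nil => intro _ i; exact one_mem_ball _
    | cons a l ih =>
      intro hl i
      rw [List.prod_cons, SemidirectProduct.mul_left, List.length_cons, add_comm]
      exact mul_mem_ball (gens_ball X (hl a List.mem_cons_self) i)
        (ih (fun x hx => hl x (List.mem_cons_of_mem _ hx)) _)
  exact ball_mono h1 (key l h2 i)

theorem ball_gens (n : ℕ) : (ball (gens X) n).ncard ≤ 120 * (ball X n).ncard ^ 5 := by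
  have hfin : Finite (ball X n) := ball_finite X n
  let f : ball (gens X) n → A5 × (Fin 5 → ball X n) :=
    fun w => (w.1.right, fun i => ⟨w.1.left i, ball_left X w.2 i⟩)
  have hf : Function.Injective f := by
    intro w w' h
    apply Subtype.ext
    apply SemidirectProduct.ext
    · funext i
      have := congrFun (congrArg Prod.snd h) i
      exact congrArg Subtype.val this
    · exact congrArg Prod.fst h
  have h1 := Nat.card_le_card_of_injective f hf
  have h2 : Nat.card A5 ≤ 120 := by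
    refine (Nat.card_le_card_of_injective (Subtype.val : A5 → Equiv.Perm (Fin 5))
      Subtype.val_injective).trans ?_
    rw [Nat.card_perm]
    simp [Nat.factorial]
  rw [Nat.card_prod, Nat.card_fun, Nat.card_eq_fintype_card (α := Fin 5), Fintype.card_fin] at h1
  exact h1.trans (Nat.mul_le_mul_right _ h2)

/-- the elements of `Pf` in the base group -/
noncomputable def P0 : Subgroup (Pf X) :=
  (SemidirectProduct.rightHom.comp (Pf X).subtype).ker

/-- the coordinate `0` -/
noncomputable def θ : P0 X →* G where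
  toFun w := (w : W G).left 0
  map_one' := rfl
  map_mul' a b := by
    have ha : ((a : Pf X) : W G).right = 1 := a.2
    show (((a : Pf X) : W G) * ((b : Pf X) : W G)).left 0 = _
    rw [SemidirectProduct.mul_left, ha, map_one]
    rfl

lemma θ_surj (hX : Subgroup.closure (X : Set G) = ⊤) : Function.Surjective (θ X) := by
  rw [← MonoidHom.range_eq_top, eq_top_iff, ← hX, Subgroup.closure_le]
  intro y hy
  obtain ⟨σ, hσ⟩ : ∃ σ : A5, σ⁻¹ • (0 : Fin 5) ≠ 0 := by
    refine ⟨⟨finRotate 5, Equiv.Perm.mem_alternatingGroup.2 (by decide)⟩, by decide⟩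
  have h1 : ψ y σ ∈ Pf X := Subgroup.subset_closure ((mem_gens X).2 ⟨y, σ, Or.inr hy, rfl⟩)
  have h2 : ψ 1 σ⁻¹ ∈ Pf X := Subgroup.subset_closure ((mem_gens X).2 ⟨1, σ⁻¹, Or.inl rfl, rfl⟩)
  refine ⟨⟨⟨ψ y σ * ψ 1 σ⁻¹, mul_mem h1 h2⟩, ?_⟩, ?_⟩
  · show (ψ y σ * ψ 1 σ⁻¹).right = 1
    rw [SemidirectProduct.mul_right, ψ_right, ψ_right, mul_inv_cancel]
  · show (ψ y σ * ψ 1 σ⁻¹).left 0 = y
    rw [SemidirectProduct.mul_left]
    show (ψ y σ).left 0 * (ψ 1 σ⁻¹).left ((ψ y σ).right⁻¹ • 0) = y
    rw [ψ_left, ψ_left, if_neg hσ, if_pos rfl]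
    simp

end

lemma vn_sub {K : Type} [Group K] (h : VirtNilp K) (L : Subgroup K) : VirtNilp L := by
  obtain ⟨H, hH, hn⟩ := h
  refine ⟨H.subgroupOf L, inferInstance, ?_⟩
  let f : H.subgroupOf L →* H := (L.subtype.comp (H.subgroupOf L).subtype).codRestrict H
    (fun x => x.2)
  have hf : Function.Injective f := by
    intro a b hab
    have : ((f a : H) : K) = f b := congrArg Subtype.val hab
    exact Subtype.ext (Subtype.ext this)
  have hk : f.ker ≤ Subgroup.center (H.subgroupOf L) := by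
    rw [(MonoidHom.ker_eq_bot_iff f).2 hf]
    exact bot_le
  exact Subgroup.isNilpotent_of_ker_le_center f hk

theorem Pf_not_vn (X : Finset G) (hX : Subgroup.closure (X : Set G) = ⊤) (h : ¬ VirtNilp G) :
    ¬ VirtNilp (Pf X) := fun hP =>
  h (vn_of_surj (vn_sub hP (P0 X)) (θ X) (θ_surj X hX))

end Pool.Agent.W2helper38.FA
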